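import Pool.Agent.Work.MP_2738db_nt_C.Interface

/-!
BRS: Brun's pure sieve with weights `(2/3) ^ ω` (cc_blocks).
-/

set_option autoImplicit false

namespace Pool.Agent.Work.MP_2738db_nt_C.helper18

open Finset

/-! ### Counting in residue classes -/

lemma count_bound (X m c : ℕ) (hm : 0 < m) :
    |(((Icc 1 X).filter (fun n => n ≡ c [MOD m])).card : ℝ) - X / m| ≤ 1 := by
  have h0 : (Icc 1 X) = Ioc 0 X := by
    ext n; simp only [mem_Icc, mem_Ioc]; omega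
  rw [h0]
  have h := Nat.Ioc_filter_modEq_card 0 X hm c
  have hm' : (0 : ℚ) < m := by exact_mod_cast hm
  set k : ℕ := ((Ioc 0 X).filter (fun n => n ≡ c [MOD m])).card with hk
  have f1 := Int.floor_le (((X : ℚ) - c) / m)
  have f2 := Int.lt_floor_add_one (((X : ℚ) - c) / m)
  have f3 := Int.floor_le ((((0 : ℕ) : ℚ) - c) / m)
  have f4 := Int.lt_floor_add_one ((((0 : ℕ) : ℚ) - c) / m)
  set A : ℤ := ⌊((X : ℚ) - c) / m⌋ with hA
  set B : ℤ := ⌊(((0 : ℕ) : ℚ) - c) / m⌋ with hB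
  have e1 : ((X : ℚ) - c) / m - (((0 : ℕ) : ℚ) - c) / m = X / m := by
    push_cast
    field_simp
    ring
  have hXm : (0 : ℚ) ≤ X / m := by positivity
  have hq : |((k : ℤ) : ℚ) - X / m| ≤ 1 := by
    rw [h]
    have h1 : ((max (A - B) 0 : ℤ) : ℚ) = max ((A : ℚ) - B) 0 := by push_cast; rfl
    rw [h1, abs_le]
    constructor
    · have := le_max_left ((A : ℚ) - B) 0
      linarith
    · have : max ((A : ℚ) - B) 0 ≤ X / m + 1 := max_le (by linarith) (by linarith)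
      linarith
  have h2 : ((|((k : ℤ) : ℚ) - X / m| : ℚ) : ℝ) ≤ ((1 : ℚ) : ℝ) := by exact_mod_cast hq
  push_cast at h2
  exact h2

/-- the local weights -/
noncomputable def aw (u : ℕ) (e : ℤ) (n p : ℕ) : ℝ :=
  (if (p : ℤ) ∣ (n : ℤ) + e * u then 1 else 0) + (if p ∣ n then 1 / 3 else 0)

lemma exists_res (u p : ℕ) (e : ℤ) (hp : 0 < p) :
    ∃ c : ℕ, ∀ n : ℕ, ((p : ℤ) ∣ (n : ℤ) + e * u ↔ n ≡ c [MOD p]) := by
  have hp' : (0 : ℤ) < p := by exact_mod_cast hp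
  refine ⟨((-(e * u)) % p).toNat, fun n => ?_⟩
  rw [← Int.natCast_modEq_iff, Int.toNat_of_nonneg (Int.emod_nonneg _ hp'.ne')]
  constructor
  · intro h
    have h1 : (n : ℤ) ≡ -(e * u) [ZMOD p] := by
      rw [Int.modEq_iff_dvd]
      have : -(e * (u : ℤ)) - n = -((n : ℤ) + e * u) := by ring
      rw [this]
      exact (dvd_neg.mpr h)
    exact h1.trans (Int.mod_modEq _ _).symm
  · intro h
    have h1 : (n : ℤ) ≡ -(e * u) [ZMOD p] := h.trans (Int.mod_modEq _ _)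
    rw [Int.modEq_iff_dvd] at h1
    have : (n : ℤ) + e * u = -(-(e * (u : ℤ)) - n) := by ring
    rw [this]
    exact (dvd_neg.mpr h1)

noncomputable def FF (X u : ℕ) (e : ℤ) (T : Finset ℕ) (m c : ℕ) : ℝ :=
  ∑ n ∈ (Icc 1 X).filter (fun n => n ≡ c [MOD m]), ∏ p ∈ T, aw u e n p

lemma FF_insert (X u : ℕ) (e : ℤ) (T : Finset ℕ) (m c p : ℕ) (hp : p.Prime) (hpT : p ∉ T)
    (hmp : m.Coprime p) :
    ∃ k1 k2 : ℕ, FF X u e (insert p T) m c
      = FF X u e T (m * p) k1 + 1 / 3 * FF X u e T (m * p) k2 := by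
  obtain ⟨c1, hc1⟩ := exists_res u p e hp.pos
  obtain ⟨k1, hk1, hk1'⟩ := Nat.chineseRemainder hmp c c1
  obtain ⟨k2, hk2, hk2'⟩ := Nat.chineseRemainder hmp c 0
  refine ⟨k1, k2, ?_⟩
  unfold FF
  have h1 : ∀ n, ∏ q ∈ insert p T, aw u e n q
      = (if (p : ℤ) ∣ (n : ℤ) + e * u then ∏ q ∈ T, aw u e n q else 0)
        + (1 / 3) * (if p ∣ n then ∏ q ∈ T, aw u e n q else 0) := by
    intro n
    rw [prod_insert hpT]
    unfold aw
    by_cases a1 : (p : ℤ) ∣ (n : ℤ) + e * u <;> by_cases a2 : p ∣ n <;> simp [a1, a2]; ring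
  simp_rw [h1]
  rw [sum_add_distrib, ← mul_sum, ← sum_filter, ← sum_filter, filter_filter, filter_filter]
  have e1 : ∀ n : ℕ, (n ≡ c [MOD m] ∧ (p : ℤ) ∣ (n : ℤ) + e * u) ↔ n ≡ k1 [MOD m * p] := by
    intro n
    rw [hc1 n, ← Nat.modEq_and_modEq_iff_modEq_mul hmp]
    exact ⟨fun h => ⟨h.1.trans hk1.symm, h.2.trans hk1'.symm⟩,
      fun h => ⟨h.1.trans hk1, h.2.trans hk1'⟩⟩
  have e2 : ∀ n : ℕ, (n ≡ c [MOD m] ∧ p ∣ n) ↔ n ≡ k2 [MOD m * p] := by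
    intro n
    rw [← Nat.modEq_zero_iff_dvd, ← Nat.modEq_and_modEq_iff_modEq_mul hmp]
    exact ⟨fun h => ⟨h.1.trans hk2.symm, h.2.trans hk2'.symm⟩,
      fun h => ⟨h.1.trans hk2, h.2.trans hk2'⟩⟩
  rw [filter_congr (fun n _ => e1 n), filter_congr (fun n _ => e2 n)]

lemma FF_bound (X u : ℕ) (e : ℤ) (T : Finset ℕ) : ∀ m c : ℕ, 0 < m →
    (∀ p ∈ T, p.Prime ∧ m.Coprime p) →
    |FF X u e T m c - X / m * ∏ p ∈ T, (4 / 3 : ℝ) / p| ≤ (4 / 3 : ℝ) ^ T.card := by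
  classical
  induction T using Finset.induction_on with
  | empty =>
    intro m c hm _
    simp only [FF, prod_empty, sum_const, nsmul_eq_mul, mul_one, card_empty, pow_zero]
    exact count_bound X m c hm
  | insert p T hpT ih =>
    intro m c hm hT
    obtain ⟨hp, hmp⟩ := hT p (mem_insert_self p T)
    obtain ⟨k1, k2, hk⟩ := FF_insert X u e T m c p hp hpT hmp
    have hco : ∀ q ∈ T, q.Prime ∧ (m * p).Coprime q := by
      intro q hq
      obtain ⟨hq1, hq2⟩ := hT q (mem_insert_of_mem hq)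
      refine ⟨hq1, Nat.Coprime.mul_left hq2 ?_⟩
      rw [Nat.coprime_primes hp hq1]
      rintro rfl
      exact hpT hq
    have b1 := ih (m * p) k1 (Nat.mul_pos hm hp.pos) hco
    have b2 := ih (m * p) k2 (Nat.mul_pos hm hp.pos) hco
    rw [hk, prod_insert hpT, card_insert_of_notMem hpT, pow_succ]
    have hp0 : (p : ℝ) ≠ 0 := by exact_mod_cast hp.pos.ne'
    have hm0 : (m : ℝ) ≠ 0 := by exact_mod_cast hm.ne'
    have e1 : (X : ℝ) / m * ((4 / 3 : ℝ) / p * ∏ q ∈ T, (4 / 3 : ℝ) / q)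
        = (X : ℝ) / ((m * p : ℕ) : ℝ) * (∏ q ∈ T, (4 / 3 : ℝ) / q)
          + 1 / 3 * ((X : ℝ) / ((m * p : ℕ) : ℝ) * ∏ q ∈ T, (4 / 3 : ℝ) / q) := by
      push_cast
      field_simp
      ring
    rw [e1]
    rw [abs_le] at b1 b2 ⊢
    constructor <;> linarith [b1.1, b1.2, b2.1, b2.2]

/-! ### Sums over subsets -/

lemma sum_powerset_prod (S : Finset ℕ) (b : ℕ → ℝ) :
    ∑ T ∈ S.powerset, ∏ i ∈ T, b i = ∏ i ∈ S, (1 + b i) := (prod_one_add S).symm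

/-- main term -/
lemma main_term (S : Finset ℕ) (b : ℕ → ℝ) (hb : ∀ i ∈ S, 0 ≤ b i) (r : ℕ) :
    ∑ T ∈ S.powerset.filter (fun T => T.card ≤ r), (-1 : ℝ) ^ T.card * ∏ i ∈ T, b i
      ≤ ∏ i ∈ S, (1 - b i) + Real.exp (-r) * ∏ i ∈ S, (1 + Real.exp 1 * b i) := by
  have h1 : ∑ T ∈ S.powerset, (-1 : ℝ) ^ T.card * ∏ i ∈ T, b i = ∏ i ∈ S, (1 - b i) := by
    have : ∀ T : Finset ℕ, (-1 : ℝ) ^ T.card * ∏ i ∈ T, b i = ∏ i ∈ T, (-b i) := by
      intro T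
      rw [← prod_const, ← prod_mul_distrib]
      exact prod_congr rfl fun i _ => by ring
    simp_rw [this]
    rw [sum_powerset_prod]
    exact prod_congr rfl fun i _ => by ring
  have h2 := sum_filter_add_sum_filter_not S.powerset (fun T => T.card ≤ r)
    (fun T => (-1 : ℝ) ^ T.card * ∏ i ∈ T, b i)
  rw [h1] at h2
  have hT : ∀ T ∈ S.powerset, 0 ≤ ∏ i ∈ T, b i := fun T hT =>
    prod_nonneg fun i hi => hb i (mem_powerset.1 hT hi)
  have h3 : -(∑ T ∈ S.powerset.filter (fun T => ¬ T.card ≤ r), (-1 : ℝ) ^ T.card * ∏ i ∈ T, b i)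
      ≤ Real.exp (-r) * ∏ i ∈ S, (1 + Real.exp 1 * b i) := by
    rw [← sum_powerset_prod, mul_sum, ← sum_neg_distrib]
    refine (sum_le_sum fun T hT' => ?_).trans
      (sum_le_sum_of_subset_of_nonneg (filter_subset _ _) fun T hT' _ => ?_)
    · obtain ⟨m1, m2⟩ := mem_filter.1 hT'
      rw [prod_mul_distrib, prod_const]
      have m3 : (r : ℝ) ≤ T.card := by exact_mod_cast (not_le.1 m2).le
      have m4 : 1 ≤ Real.exp (-r) * Real.exp 1 ^ T.card := by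
        rw [← Real.exp_nat_mul, mul_one, ← Real.exp_add]
        exact Real.one_le_exp (by linarith)
      have m5 := hT T m1
      have m6 : -((-1 : ℝ) ^ T.card * ∏ i ∈ T, b i) ≤ ∏ i ∈ T, b i := by
        rcases neg_one_pow_eq_or ℝ T.card with h | h <;> rw [h] <;> linarith
      calc -((-1 : ℝ) ^ T.card * ∏ i ∈ T, b i) ≤ 1 * ∏ i ∈ T, b i := by rw [one_mul]; exact m6
        _ ≤ (Real.exp (-r) * Real.exp 1 ^ T.card) * ∏ i ∈ T, b i :=
          mul_le_mul_of_nonneg_right m4 m5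
        _ = _ := by ring
    · exact mul_nonneg (Real.exp_pos _).le (prod_nonneg fun i hi =>
        mul_nonneg (Real.exp_pos _).le (hb i (mem_powerset.1 hT' hi)))
  linarith

/-- error term -/
lemma err_term (S : Finset ℕ) (z r : ℕ) (hS : S.card ≤ z) :
    ∑ T ∈ S.powerset.filter (fun T => T.card ≤ r), (4 / 3 : ℝ) ^ T.card
      ≤ Real.exp (4 / 3) * ((z : ℝ) + 1) ^ r := by
  have hz : (0 : ℝ) < (z : ℝ) + 1 := by positivity
  have h1 : ∀ T ∈ S.powerset.filter (fun T => T.card ≤ r), (4 / 3 : ℝ) ^ T.card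
      ≤ ((z : ℝ) + 1) ^ r * ∏ _i ∈ T, ((4 / 3 : ℝ) / ((z : ℝ) + 1)) := by
    intro T hT
    obtain ⟨_, m2⟩ := mem_filter.1 hT
    rw [prod_const, div_pow ((4 : ℝ) / 3) ((z : ℝ) + 1)]
    have : ((z : ℝ) + 1) ^ T.card ≤ ((z : ℝ) + 1) ^ r :=
      pow_le_pow_right₀ (by linarith [(Nat.cast_nonneg z : (0:ℝ) ≤ z)]) m2
    rw [mul_div_assoc', le_div_iff₀ (by positivity), mul_comm]
    exact mul_le_mul_of_nonneg_right this (by positivity)
  refine (sum_le_sum h1).trans ?_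
  rw [← mul_sum, mul_comm]
  refine mul_le_mul_of_nonneg_right ?_ (by positivity)
  refine (sum_le_sum_of_subset_of_nonneg (filter_subset _ _) fun T _ _ =>
    prod_nonneg fun _ _ => by positivity).trans ?_
  rw [sum_powerset_prod S (fun _ => (4 / 3 : ℝ) / ((z : ℝ) + 1)), prod_const]
  have h2 : 1 + (4 / 3 : ℝ) / ((z : ℝ) + 1) ≤ Real.exp ((4 / 3 : ℝ) / ((z : ℝ) + 1)) := by
    have := Real.add_one_le_exp ((4 / 3 : ℝ) / ((z : ℝ) + 1)); linarith
  refine (pow_le_pow_left₀ (by positivity) h2 _).trans ?_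
  rw [← Real.exp_nat_mul]
  refine Real.exp_le_exp.mpr ?_
  have : (S.card : ℝ) ≤ z := by exact_mod_cast hS
  rw [mul_div_assoc', div_le_iff₀ hz]
  nlinarith

/-! ### The sieve -/

/-- the sieving primes -/
def S0 (z u : ℕ) : Finset ℕ := (Icc 1 z).filter (fun p => p.Prime ∧ ¬ p ∣ 2 * u)

lemma S0_card (z u : ℕ) : (S0 z u).card ≤ z :=
  (card_filter_le _ _).trans (by rw [Nat.card_Icc]; omega)

lemma mem_S0 {z u p : ℕ} (h : p ∈ S0 z u) : p.Prime ∧ p ≤ z ∧ ¬ p ∣ 2 * u := by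
  obtain ⟨h1, h2⟩ := mem_filter.1 h
  exact ⟨h2.1, (mem_Icc.1 h1).2, h2.2⟩

lemma not_both {u n p : ℕ} {e : ℤ} (he : e = 1 ∨ e = -1) (hpu : ¬ p ∣ 2 * u)
    (h1 : (p : ℤ) ∣ (n : ℤ) + e * u) (h2 : p ∣ n) : False := by
  have h3 : (p : ℤ) ∣ (n : ℤ) := by exact_mod_cast h2
  have h4 : (p : ℤ) ∣ e * u := (dvd_add_right h3).1 h1
  have h5 : (p : ℤ) ∣ (u : ℤ) := by
    rcases he with rfl | rfl
    · simpa using h4
    · simpa using h4
  exact hpu (Dvd.dvd.mul_left (by exact_mod_cast h5) 2)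

lemma aw_bound {z u n p : ℕ} {e : ℤ} (he : e = 1 ∨ e = -1) (hp : p ∈ S0 z u) :
    0 ≤ aw u e n p ∧ aw u e n p ≤ 1 := by
  unfold aw
  by_cases a1 : (p : ℤ) ∣ (n : ℤ) + e * u
  · by_cases a2 : p ∣ n
    · exact (not_both he (mem_S0 hp).2.2 a1 a2).elim
    · rw [if_pos a1, if_neg a2]; norm_num
  · rw [if_neg a1]
    split_ifs <;> norm_num

lemma weight_le (X z u : ℕ) (e : ℤ) (he : e = 1 ∨ e = -1) (S : Finset ℕ)
    (hS : ∀ n ∈ S, 1 ≤ n ∧ n ≤ X ∧ ∀ p : ℕ, p.Prime → p ≤ z → ¬ p ∣ 2 * u →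
      ¬ (p : ℤ) ∣ (n : ℤ) + e * u) :
    ∑ n ∈ S, (2 / 3 : ℝ) ^ om z n ≤ ∑ n ∈ Icc 1 X, ∏ p ∈ S0 z u, (1 - aw u e n p) := by
  have h1 : ∀ n ∈ S, (2 / 3 : ℝ) ^ om z n ≤ ∏ p ∈ S0 z u, (1 - aw u e n p) := by
    intro n hn
    have h2 : ∏ p ∈ S0 z u, (1 - aw u e n p)
        = ∏ p ∈ S0 z u, (if p ∣ n then (2 / 3 : ℝ) else 1) := by
      refine prod_congr rfl fun p hp => ?_
      obtain ⟨q1, q2, q3⟩ := mem_S0 hp
      unfold aw
      rw [if_neg ((hS n hn).2.2 p q1 q2 q3)]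
      split_ifs <;> norm_num
    rw [h2, prod_ite, prod_const_one, mul_one, prod_const]
    refine pow_le_pow_of_le_one (by norm_num) (by norm_num) ?_
    unfold om
    refine card_le_card fun p hp => ?_
    obtain ⟨q1, q2⟩ := mem_filter.1 hp
    obtain ⟨q3, q4, q5⟩ := mem_S0 q1
    exact mem_filter.2 ⟨mem_Icc.2 ⟨q3.one_lt.le, q4⟩, q3, q2⟩
  refine (sum_le_sum h1).trans (sum_le_sum_of_subset_of_nonneg ?_ fun n _ _ => ?_)
  · intro n hn
    exact mem_Icc.2 ⟨(hS n hn).1, (hS n hn).2.1⟩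
  · exact prod_nonneg fun p hp => by linarith [(aw_bound (n := n) he hp).2]

lemma brun (hB : Stmt_Bon) (X z u : ℕ) (e : ℤ) (he : e = 1 ∨ e = -1) (r : ℕ) (hr : Even r) :
    ∑ n ∈ Icc 1 X, ∏ p ∈ S0 z u, (1 - aw u e n p)
      ≤ X * (∏ p ∈ S0 z u, (1 - (4 / 3 : ℝ) / p)
        + Real.exp (-r) * ∏ p ∈ S0 z u, (1 + Real.exp 1 * ((4 / 3 : ℝ) / p)))
        + Real.exp (4 / 3) * ((z : ℝ) + 1) ^ r := by
  have h1 : ∀ n ∈ Icc 1 X, ∏ p ∈ S0 z u, (1 - aw u e n p)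
      ≤ ∑ T ∈ (S0 z u).powerset.filter (fun T => T.card ≤ r),
        (-1) ^ T.card * ∏ p ∈ T, aw u e n p := fun n _ =>
    hB (S0 z u) (aw u e n) r (fun p hp => aw_bound he hp) hr
  refine (sum_le_sum h1).trans ?_
  rw [sum_comm]
  have h2 : ∀ T ∈ (S0 z u).powerset.filter (fun T => T.card ≤ r),
      ∑ n ∈ Icc 1 X, (-1 : ℝ) ^ T.card * ∏ p ∈ T, aw u e n p
        ≤ X * ((-1 : ℝ) ^ T.card * ∏ p ∈ T, (4 / 3 : ℝ) / p) + (4 / 3 : ℝ) ^ T.card := by
    intro T hT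
    have hT' := mem_powerset.1 (mem_filter.1 hT).1
    rw [← mul_sum]
    have h3 := FF_bound X u e T 1 0 one_pos
      (fun p hp => ⟨(mem_S0 (hT' hp)).1, Nat.coprime_one_left p⟩)
    have h4 : FF X u e T 1 0 = ∑ n ∈ Icc 1 X, ∏ p ∈ T, aw u e n p := by
      unfold FF
      rw [filter_true_of_mem fun n _ => Nat.modEq_one]
    rw [h4, Nat.cast_one, div_one, abs_le] at h3
    rcases neg_one_pow_eq_or ℝ T.card with h | h <;> rw [h] <;> linarith [h3.1, h3.2]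
  refine (sum_le_sum h2).trans ?_
  rw [sum_add_distrib, ← mul_sum]
  refine add_le_add (mul_le_mul_of_nonneg_left ?_ (Nat.cast_nonneg X)) (err_term _ z r (S0_card z u))
  exact main_term _ _ (fun p _ => by positivity) r

/-! ### Estimates -/

lemma exp_sum_le (u : ℕ) (hu : 1 ≤ u) :
    Real.exp (∑ p ∈ u.primeFactors, (1 : ℝ) / p) ≤ (u : ℝ) / u.totient := by
  have h1 : (u.totient : ℝ) = u * ∏ p ∈ u.primeFactors, (1 - (p : ℝ)⁻¹) := by
    have := Nat.totient_eq_mul_prod_factors u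
    have h2 : ((u.totient : ℚ) : ℝ)
        = ((u * ∏ p ∈ u.primeFactors, (1 - (p : ℚ)⁻¹) : ℚ) : ℝ) := by rw [this]
    push_cast at h2
    exact h2
  have hu' : (0 : ℝ) < u := by exact_mod_cast hu
  have hphi : (0 : ℝ) < u.totient := by exact_mod_cast Nat.totient_pos.2 hu
  rw [le_div_iff₀ hphi, h1]
  have h2 : Real.exp (∑ p ∈ u.primeFactors, (1 : ℝ) / p)
      * ∏ p ∈ u.primeFactors, (1 - (p : ℝ)⁻¹) ≤ 1 := by
    rw [Real.exp_sum, ← prod_mul_distrib]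
    refine prod_le_one (fun p hp => ?_) fun p hp => ?_
    · have : (1 : ℝ) ≤ p := by exact_mod_cast (Nat.prime_of_mem_primeFactors hp).one_lt.le
      exact mul_nonneg (Real.exp_pos _).le (by linarith [inv_le_one_of_one_le₀ this])
    · have h3 := Real.one_sub_le_exp_neg ((p : ℝ)⁻¹)
      calc Real.exp ((1 : ℝ) / p) * (1 - (p : ℝ)⁻¹)
          ≤ Real.exp ((1 : ℝ) / p) * Real.exp (-((p : ℝ)⁻¹)) :=
            mul_le_mul_of_nonneg_left h3 (Real.exp_pos _).le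
        _ = 1 := by rw [← Real.exp_add, one_div, add_neg_cancel, Real.exp_zero]
  calc Real.exp (∑ p ∈ u.primeFactors, (1 : ℝ) / p)
        * (u * ∏ p ∈ u.primeFactors, (1 - (p : ℝ)⁻¹))
      = u * (Real.exp (∑ p ∈ u.primeFactors, (1 : ℝ) / p)
        * ∏ p ∈ u.primeFactors, (1 - (p : ℝ)⁻¹)) := by ring
    _ ≤ u * 1 := mul_le_mul_of_nonneg_left h2 hu'.le
    _ = u := mul_one _

lemma sum_S0_ge (z u : ℕ) (hu : 1 ≤ u) :
    ∑ p ∈ (Icc 1 z).filter Nat.Prime, (1 : ℝ) / p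
      ≤ ∑ p ∈ S0 z u, (1 : ℝ) / p + (1 / 2 + ∑ p ∈ u.primeFactors, (1 : ℝ) / p) := by
  classical
  rw [← sum_filter_add_sum_filter_not ((Icc 1 z).filter Nat.Prime) (fun p => ¬ p ∣ 2 * u)]
  refine add_le_add (le_of_eq ?_) ?_
  · refine sum_congr ?_ fun _ _ => rfl
    unfold S0
    rw [filter_filter]
  · have h1 : ((Icc 1 z).filter Nat.Prime).filter (fun p => ¬ ¬ p ∣ 2 * u)
        ⊆ {2} ∪ u.primeFactors := by
      intro p hp
      obtain ⟨q1, q2⟩ := mem_filter.1 hp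
      have q3 := (mem_filter.1 q1).2
      rw [not_not, q3.dvd_mul] at q2
      rcases q2 with q2 | q2
      · exact mem_union_left _ (mem_singleton.2 ((Nat.prime_dvd_prime_iff_eq q3 Nat.prime_two).1 q2))
      · exact mem_union_right _ (Nat.mem_primeFactors.2 ⟨q3, q2, by omega⟩)
    refine (sum_le_sum_of_subset_of_nonneg h1 fun _ _ _ => by positivity).trans ?_
    have h2 := sum_union_inter (s₁ := {2}) (s₂ := u.primeFactors) (f := fun p : ℕ => (1 : ℝ) / p)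
    have h3 : 0 ≤ ∑ p ∈ ({2} ∩ u.primeFactors : Finset ℕ), (1 : ℝ) / p :=
      sum_nonneg fun _ _ => by positivity
    have h4 : ∑ p ∈ ({2} : Finset ℕ), (1 : ℝ) / p = 1 / 2 := by simp
    linarith

/-- the factor of the sieve -/
lemma prod_one_sub_le (z u : ℕ) (hu : 1 ≤ u) (l C0 : ℝ)
    (h : l - C0 ≤ ∑ p ∈ (Icc 1 z).filter Nat.Prime, (1 : ℝ) / p) :
    ∏ p ∈ S0 z u, (1 - (4 / 3 : ℝ) / p)
      ≤ Real.exp (-(4 / 3 * l)) * Real.exp (4 / 3 * C0 + 2 / 3) * ((u : ℝ) / u.totient) ^ 2 := by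
  have h0 : ∏ p ∈ S0 z u, (1 - (4 / 3 : ℝ) / p) ≤ ∏ p ∈ S0 z u, Real.exp (-((4 / 3 : ℝ) / p)) := by
    refine prod_le_prod (fun p hp => ?_) fun p hp => Real.one_sub_le_exp_neg _
    have h1 : (2 : ℝ) ≤ p := by exact_mod_cast (mem_S0 hp).1.two_le
    have h2 : (4 / 3 : ℝ) / p ≤ 1 := by rw [div_le_one (by linarith)]; linarith
    linarith
  refine h0.trans ?_
  rw [← Real.exp_sum]
  have h1 : ∑ p ∈ S0 z u, -((4 / 3 : ℝ) / p) = -(4 / 3) * ∑ p ∈ S0 z u, (1 : ℝ) / p := by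
    rw [mul_sum]; exact sum_congr rfl fun p _ => by ring
  rw [h1]
  have h2 := sum_S0_ge z u hu
  have h3 := exp_sum_le u hu
  set s := ∑ p ∈ u.primeFactors, (1 : ℝ) / p with hs
  have hs0 : 0 ≤ s := sum_nonneg fun _ _ => by positivity
  have h4 : Real.exp (2 * s) ≤ ((u : ℝ) / u.totient) ^ 2 := by
    rw [two_mul, Real.exp_add, ← sq]
    exact pow_le_pow_left₀ (Real.exp_pos _).le h3 2
  calc Real.exp (-(4 / 3) * ∑ p ∈ S0 z u, (1 : ℝ) / p)
      ≤ Real.exp (-(4 / 3 * l) + (4 / 3 * C0 + 2 / 3) + 2 * s) :=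
        Real.exp_le_exp.mpr (by linarith)
    _ = Real.exp (-(4 / 3 * l)) * Real.exp (4 / 3 * C0 + 2 / 3) * Real.exp (2 * s) := by
        rw [Real.exp_add, Real.exp_add]
    _ ≤ _ := mul_le_mul_of_nonneg_left h4 (by positivity)

lemma prod_one_add_le (z u : ℕ) (l C0 : ℝ)
    (h : ∑ p ∈ (Icc 1 z).filter Nat.Prime, (1 : ℝ) / p ≤ l + C0) :
    ∏ p ∈ S0 z u, (1 + Real.exp 1 * ((4 / 3 : ℝ) / p)) ≤ Real.exp (4 * (l + C0)) := by
  have h0 : ∏ p ∈ S0 z u, (1 + Real.exp 1 * ((4 / 3 : ℝ) / p))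
      ≤ ∏ p ∈ S0 z u, Real.exp (4 * ((1 : ℝ) / p)) := by
    refine prod_le_prod (fun p _ => by positivity) fun p hp => ?_
    have h1 : Real.exp 1 * ((4 / 3 : ℝ) / p) ≤ 4 * ((1 : ℝ) / p) := by
      have h2 : Real.exp 1 ≤ 3 := by
        have := Real.exp_one_lt_d9; linarith
      have h3 : (0 : ℝ) ≤ (4 / 3 : ℝ) / p := by positivity
      calc Real.exp 1 * ((4 / 3 : ℝ) / p) ≤ 3 * ((4 / 3 : ℝ) / p) :=
            mul_le_mul_of_nonneg_right h2 h3
        _ = _ := by ring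
    have h4 := Real.add_one_le_exp (4 * ((1 : ℝ) / p))
    linarith
  refine h0.trans ?_
  rw [← Real.exp_sum, ← mul_sum]
  refine Real.exp_le_exp.mpr (mul_le_mul_of_nonneg_left ?_ (by norm_num))
  refine le_trans (sum_le_sum_of_subset_of_nonneg ?_ fun _ _ _ => by positivity) h
  intro p hp
  obtain ⟨q1, q2⟩ := mem_filter.1 hp
  exact mem_filter.2 ⟨q1, q2.1⟩

/-- **BRS** -/
theorem brs : Stmt_Bon → Stmt_Mer → Stmt_Brs := by
  intro hB hM
  obtain ⟨C0, hC0, hMer⟩ := hM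
  have hC : 1 ≤ 40 + 16 * C0 + Real.exp (4 / 3 * C0 + 2 / 3) + Real.exp (4 / 3) := by
    have h1 := Real.exp_pos (4 / 3 * C0 + 2 / 3)
    have h2 := Real.exp_pos ((4 : ℝ) / 3)
    linarith
  refine ⟨40 + 16 * C0 + Real.exp (4 / 3 * C0 + 2 / 3) + Real.exp (4 / 3), hC, ?_⟩
  intro X z u e S he hz hu hX hS
  set C := 40 + 16 * C0 + Real.exp (4 / 3 * C0 + 2 / 3) + Real.exp (4 / 3) with hCdef
  have hz3 : (3 : ℝ) ≤ z := by exact_mod_cast hz
  have hz0 : (0 : ℝ) < z := by linarith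
  set L := Real.log z with hL
  have hL1 : 1 < L := by
    rw [hL, Real.lt_log_iff_exp_lt hz0]
    have := Real.exp_one_lt_d9; linarith
  have hL0 : 0 < L := by linarith
  set l := Real.log L with hl
  have hl0 : 0 < l := Real.log_pos hL1
  have hlL : l ≤ L := (Real.log_le_sub_one_of_pos hL0).trans (by linarith)
  have hmer := abs_le.1 (hMer z (by omega))
  have hm1 : l - C0 ≤ ∑ p ∈ (Icc 1 z).filter Nat.Prime, (1 : ℝ) / p := by linarith [hmer.1]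
  have hm2 : ∑ p ∈ (Icc 1 z).filter Nat.Prime, (1 : ℝ) / p ≤ l + C0 := by linarith [hmer.2]
  -- the level
  set r : ℕ := 2 * ⌈3 * l + 2 * C0⌉₊ with hr
  have hr1 : 6 * l + 4 * C0 ≤ r := by
    have := Nat.le_ceil (3 * l + 2 * C0)
    rw [hr]; push_cast; linarith
  have hr2 : (r : ℝ) ≤ 6 * l + 4 * C0 + 2 := by
    have := (Nat.ceil_lt_add_one (by positivity : 0 ≤ 3 * l + 2 * C0)).le
    rw [hr]; push_cast; linarith
  -- size of X
  set ll := Real.log (1 + L) with hll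
  have hll0 : 0 ≤ ll := Real.log_nonneg (by linarith)
  have hlll : l ≤ ll := Real.log_le_log hL0 (by linarith)
  have hXL : C * L ≤ Real.log X := by
    have : C * L ≤ C * (1 + ll) * L := by
      have : 0 ≤ C * ll * L := by positivity
      nlinarith
    exact this.trans hX
  have hC40 : 40 + 16 * C0 ≤ C := by
    have h1 := Real.exp_pos (4 / 3 * C0 + 2 / 3)
    have h2 := Real.exp_pos ((4 : ℝ) / 3)
    rw [hCdef]; linarith
  have hXpos : (0 : ℝ) < Real.log X := by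
    have : 0 < C * L := by positivity
    linarith
  have hX0 : (0 : ℝ) < X := by
    rcases Nat.eq_zero_or_pos X with h | h
    · rw [h] at hXpos; simp at hXpos
    · exact_mod_cast h
  -- the error
  have hlog1 : Real.log ((z : ℝ) + 1) ≤ 2 * L := by
    have h1 : (z : ℝ) + 1 ≤ (z : ℝ) ^ 2 := by nlinarith
    calc Real.log ((z : ℝ) + 1) ≤ Real.log ((z : ℝ) ^ 2) := Real.log_le_log (by linarith) h1
      _ = 2 * L := by rw [Real.log_pow]; push_cast; ring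
  have herr1 : ((z : ℝ) + 1) ^ r ≤ Real.exp (Real.log X / 2) := by
    have h1 : ((z : ℝ) + 1) ^ r = Real.exp (r * Real.log ((z : ℝ) + 1)) := by
      rw [mul_comm, Real.exp_mul, Real.exp_log (by linarith), Real.rpow_natCast]
    rw [h1]
    refine Real.exp_le_exp.mpr ?_
    have h2 : (r : ℝ) ≤ (8 + 4 * C0) * (1 + ll) := by nlinarith
    have h3 : (r : ℝ) * Real.log ((z : ℝ) + 1) ≤ (8 + 4 * C0) * (1 + ll) * (2 * L) :=
      mul_le_mul h2 hlog1 (Real.log_nonneg (by linarith)) (by positivity)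
    have h4 : (8 + 4 * C0) * (1 + ll) * (2 * L) * 2 ≤ C * (1 + ll) * L := by
      have h5 : 0 ≤ (1 + ll) * L := by positivity
      nlinarith
    linarith
  have herr2 : Real.exp (Real.log X / 2) ≤ X * Real.exp (-(4 / 3 * l)) := by
    have h1 : (X : ℝ) = Real.exp (Real.log X) := (Real.exp_log hX0).symm
    conv_rhs => rw [h1]
    rw [← Real.exp_add]
    refine Real.exp_le_exp.mpr ?_
    have : 40 * L ≤ C * L := by nlinarith
    linarith
  -- assembly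
  have hE : Real.exp (-(4 / 3 * l)) = 1 / L ^ (4 / 3 : ℝ) := by
    rw [Real.rpow_def_of_pos hL0, ← hl, one_div, ← Real.exp_neg]
    congr 1; ring
  set w := ((u : ℝ) / u.totient) ^ 2 with hw
  have hw1 : 1 ≤ w := by
    have hphi : (0 : ℝ) < u.totient := by exact_mod_cast Nat.totient_pos.2 hu
    have h1 : (1 : ℝ) ≤ (u : ℝ) / u.totient := by
      rw [le_div_iff₀ hphi, one_mul]; exact_mod_cast Nat.totient_le u
    rw [hw]
    nlinarith
  have t1 := prod_one_sub_le z u hu l C0 hm1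
  have t2 : Real.exp (-r) * ∏ p ∈ S0 z u, (1 + Real.exp 1 * ((4 / 3 : ℝ) / p))
      ≤ Real.exp (-(4 / 3 * l)) * 1 := by
    have h1 := prod_one_add_le z u l C0 hm2
    calc Real.exp (-r) * ∏ p ∈ S0 z u, (1 + Real.exp 1 * ((4 / 3 : ℝ) / p))
        ≤ Real.exp (-r) * Real.exp (4 * (l + C0)) :=
          mul_le_mul_of_nonneg_left h1 (Real.exp_pos _).le
      _ = Real.exp (-r + 4 * (l + C0)) := by rw [← Real.exp_add]
      _ ≤ Real.exp (-(4 / 3 * l)) := Real.exp_le_exp.mpr (by linarith)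
      _ = _ := (mul_one _).symm
  have t3 : Real.exp (4 / 3) * ((z : ℝ) + 1) ^ r
      ≤ Real.exp (4 / 3) * (X * Real.exp (-(4 / 3 * l))) :=
    mul_le_mul_of_nonneg_left (herr1.trans herr2) (Real.exp_pos _).le
  have t4 := brun hB X z u e he r ⟨⌈3 * l + 2 * C0⌉₊, by rw [hr]; ring⟩
  have t5 := weight_le X z u e he S hS
  set E := Real.exp (-(4 / 3 * l)) with hEdef
  have hE0 : 0 < E := Real.exp_pos _
  have t6 : X * (∏ p ∈ S0 z u, (1 - (4 / 3 : ℝ) / p)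
        + Real.exp (-r) * ∏ p ∈ S0 z u, (1 + Real.exp 1 * ((4 / 3 : ℝ) / p)))
      ≤ X * (E * Real.exp (4 / 3 * C0 + 2 / 3) * w + E * 1) :=
    mul_le_mul_of_nonneg_left (add_le_add t1 t2) hX0.le
  have hXE : 0 ≤ X * E := by positivity
  have t7 : X * (E * Real.exp (4 / 3 * C0 + 2 / 3) * w + E * 1) + Real.exp (4 / 3) * (X * E)
      ≤ X * E * w * (Real.exp (4 / 3 * C0 + 2 / 3) + 1 + Real.exp (4 / 3)) := by
    have h1 : X * E * (1 + Real.exp (4 / 3)) ≤ X * E * w * (1 + Real.exp (4 / 3)) := by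
      refine mul_le_mul_of_nonneg_right ?_ (by positivity)
      nlinarith
    linarith
  have t8 : X * E * w * (Real.exp (4 / 3 * C0 + 2 / 3) + 1 + Real.exp (4 / 3)) ≤ X * E * w * C := by
    refine mul_le_mul_of_nonneg_left ?_ (by positivity)
    rw [hCdef]
    linarith
  calc ∑ n ∈ S, (2 / 3 : ℝ) ^ om z n ≤ X * E * w * C := by linarith
    _ = C * X / L ^ (4 / 3 : ℝ) * w := by rw [hE]; ring

end Pool.Agent.Work.MP_2738db_nt_C.helper18
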